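import Pool.Agent.TH892.CF3

/-!
# The Hardy-Littlewood formula for almost all quadratic polynomials of height at most `H`

All three coefficients vary: for all but the proportion `(log H)^(-U)` of the triples `(a, b, c)` with
`1 ≤ a ≤ H`, `|b|, |c| ≤ H` the number of `n ≤ K` for which `|a n² + b n + c|` is prime is given by the
Hardy-Littlewood formula with the true, conditionally convergent constant
`ε C(a, b, c) ∏_{p > 2, p ∣ gcd(a, b)} p / (p - 1)` and the relative error `(log H)^(-U)`, simultaneously for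
ALL lengths `K` between `H^η` and `H / (log H)^B`.
-/

set_option autoImplicit false

namespace Pool.Agent.Results.MP_a1177c_nt.AllTriples

open Finset Filter Topology
open Pool.Agent.W468.ConjF (CF P nr)
open Pool.Agent.TH892 (pol Tr dsc)
open Pool.Agent.H300R2.BH (SS rho)
open Pool.Agent.H300R2.FB (pa la)

/-- the triple `(a, b, c)` is admissible -/
def Admissible (a b c : ℤ) : Prop :=
  0 < a ∧ (∀ d : ℤ, d ∣ a → d ∣ b → d ∣ c → IsUnit d) ∧ ¬ ((2 : ℤ) ∣ a + b ∧ (2 : ℤ) ∣ c) ∧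
    ¬ IsSquare (b ^ 2 - 4 * a * c)

/-- the triples `(a, b, c)` with `1 ≤ a ≤ H` and `|b|, |c| ≤ H` -/
noncomputable def triples (H : ℕ) : Finset (ℤ × ℤ × ℤ) := Icc (1 : ℤ) H ×ˢ Icc (-(H : ℤ)) H ×ˢ Icc (-(H : ℤ)) H

/-- the number of `1 ≤ n ≤ K` for which `|a n² + b n + c|` is prime -/
noncomputable def primeCount (a b c : ℤ) (K : ℕ) : ℝ :=
  (#((Icc 1 K).filter (fun n : ℕ => (a * (n : ℤ) ^ 2 + b * n + c).natAbs.Prime)) : ℝ)

/-- `∑ 1 / log |a n² + b n + c|` over the `1 ≤ n ≤ K` with `|a n² + b n + c| ≥ 2` -/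
noncomputable def logSum (a b c : ℤ) (K : ℕ) : ℝ :=
  ∑ n ∈ (Icc 1 K).filter (fun n : ℕ => 2 ≤ |a * (n : ℤ) ^ 2 + b * n + c|),
    1 / Real.log |((a * (n : ℤ) ^ 2 + b * n + c : ℤ) : ℝ)|

/-- `ε = 2` if `a + b` is even and `ε = 1` if `a + b` is odd -/
noncomputable def eps (a b : ℤ) : ℝ := if (2 : ℤ) ∣ a + b then 2 else 1

/-- the product `∏_{p > 2, p ∣ gcd(a, b)} p / (p - 1)` -/
noncomputable def gcdProd (a b : ℤ) : ℝ :=
  ∏ p ∈ (Int.gcd a b).primeFactors.filter (fun p => 2 < p), (p : ℝ) / (p - 1)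

/-- the product `∏_{2 < p ≤ z, p ∤ a} (1 - (D / p) / (p - 1))`, where `D = b² - 4 a c` -/
noncomputable def partialC (a b c : ℤ) (z : ℕ) : ℝ :=
  ∏ p ∈ (Icc 3 z).filter (fun p : ℕ => p.Prime ∧ ¬ (p : ℤ) ∣ a),
    (1 - (jacobiSym (b ^ 2 - 4 * a * c) p : ℝ) / (p - 1))

lemma eps_pos (a b : ℤ) : 0 < eps a b := by
  unfold eps; split_ifs <;> norm_num

lemma gcdProd_pos (a b : ℤ) : 0 < gcdProd a b := by
  unfold gcdProd
  apply prod_pos
  intro p hp
  have : (2 : ℝ) < p := by exact_mod_cast (mem_filter.1 hp).2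
  apply div_pos <;> linarith

lemma CF_eq (a b c : ℤ) (ha : 0 < a) (z : ℕ) (hz : a ≤ z) :
    2 * CF a b c z = eps a b * gcdProd a b * partialC a b c z := by
  unfold CF eps gcdProd partialC
  have e1 : (range (z + 1)).filter (fun p : ℕ => p.Prime ∧ 3 ≤ p ∧ (p : ℤ) ∣ a ∧ (p : ℤ) ∣ b) =
      (Int.gcd a b).primeFactors.filter (fun p => 2 < p) := by
    ext p
    simp only [mem_filter, mem_range, Nat.mem_primeFactors]
    have hg : Int.gcd a b ≠ 0 := by
      intro h
      have := (Int.gcd_eq_zero_iff.1 h).1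
      omega
    constructor
    · rintro ⟨-, h1, h2, h3, h4⟩
      refine ⟨⟨h1, ?_, hg⟩, by omega⟩
      have := Int.dvd_coe_gcd h3 h4
      exact_mod_cast this
    · rintro ⟨⟨h1, h2, -⟩, h3⟩
      have h4 : (p : ℤ) ∣ (Int.gcd a b : ℤ) := by exact_mod_cast h2
      have h5 : (p : ℤ) ∣ a := h4.trans (Int.gcd_dvd_left _ _)
      have h6 : (p : ℤ) ∣ b := h4.trans (Int.gcd_dvd_right _ _)
      have h7 := Int.le_of_dvd ha h5
      exact ⟨by omega, h1, by omega, h5, h6⟩
  have e2 : (range (z + 1)).filter (fun p : ℕ => p.Prime ∧ 3 ≤ p ∧ ¬ (p : ℤ) ∣ a) =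
      (Icc 3 z).filter (fun p : ℕ => p.Prime ∧ ¬ (p : ℤ) ∣ a) := by
    ext p
    simp only [mem_filter, mem_range, mem_Icc]
    constructor
    · rintro ⟨h0, h1, h2, h3⟩; exact ⟨⟨h2, by omega⟩, h1, h3⟩
    · rintro ⟨⟨h0, h1⟩, h2, h3⟩; exact ⟨by omega, h2, h0, h3⟩
  rw [e1, e2]
  split_ifs
  · ring
  · ring

lemma pol_eval3 (a b c : ℤ) (n : ℤ) : (pol ![c, b, a]).eval n = a * n ^ 2 + b * n + c := by
  rw [Pool.Agent.TH892.pol_eval, Fin.sum_univ_three]
  simp
  ring

lemma rho_eq (a b c : ℤ) (p : ℕ) : rho (pol ![c, b, a]) p = nr a b c p := by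
  unfold rho nr
  congr 1
  ext k
  simp only [mem_filter, pol_eval3]

lemma pa_eq (a b c : ℤ) (K : ℕ) : pa (pol ![c, b, a]) K = primeCount a b c K := by
  unfold pa primeCount
  congr 2
  ext k
  simp only [mem_filter, pol_eval3]

lemma la_eq (a b c : ℤ) (K : ℕ) : la (pol ![c, b, a]) K = logSum a b c K := by
  unfold la logSum
  simp only [pol_eval3]

/-- The local factors. -/
lemma factor (a b c : ℤ) (h : Admissible a b c) {p : ℕ} (hp : p.Prime) :
    nr a b c p ≠ p ∧ (1 - (nr a b c p : ℝ) / p) / (1 - 1 / (p : ℝ)) =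
      if p = 2 then (if (2 : ℤ) ∣ a + b then 2 else 1)
      else if (p : ℤ) ∣ a ∧ (p : ℤ) ∣ b then (p : ℝ) / (p - 1)
      else if (p : ℤ) ∣ a then 1 else 1 - (jacobiSym (b ^ 2 - 4 * a * c) p : ℝ) / (p - 1) := by
  obtain ⟨ha, hg, h2, hD⟩ := h
  by_cases hp2 : p = 2
  · subst hp2
    rw [if_pos rfl, Pool.Agent.W468.ConjF.nr_two a b c h2]
    split_ifs <;> norm_num
  · rw [if_neg hp2]
    have hp3 : 3 ≤ p := by have := hp.two_le; omega
    have hpr : (3 : ℝ) ≤ p := by exact_mod_cast hp3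
    have hp1 : (p : ℝ) - 1 ≠ 0 := by linarith
    have hp0 : (p : ℝ) ≠ 0 := by linarith
    by_cases hpa : (p : ℤ) ∣ a
    · by_cases hpb : (p : ℤ) ∣ b
      · have hpc : ¬ (p : ℤ) ∣ c := by
          intro hc
          have hu := hg _ hpa hpb hc
          rw [Int.isUnit_iff] at hu
          omega
        rw [if_pos ⟨hpa, hpb⟩, Pool.Agent.W468.ConjF.nr_none a b c p hpa hpb hpc]
        refine ⟨by omega, ?_⟩
        push_cast
        field_simp
        ring
      · rw [if_neg (fun hh => hpb hh.2), if_pos hpa, Pool.Agent.W468.ConjF.nr_lin a b c p hp hpa hpb]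
        refine ⟨by omega, ?_⟩
        push_cast
        have : 1 - 1 / (p : ℝ) ≠ 0 := by
          have : 1 / (p : ℝ) ≤ 1 / 3 := one_div_le_one_div_of_le (by norm_num) hpr
          linarith
        exact div_self this
    · rw [if_neg (fun hh => hpa hh.1), if_neg hpa]
      have h3 := Pool.Agent.W468.ConjF.nr_odd a b c p hp hp3 hpa
      have h4 : (nr a b c p : ℝ) = (jacobiSym (b ^ 2 - 4 * a * c) p : ℝ) + 1 := by exact_mod_cast h3
      refine ⟨?_, ?_⟩
      · intro h5
        have h6 : (jacobiSym (b ^ 2 - 4 * a * c) p : ℤ) ≤ 1 := by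
          rcases jacobiSym.trichotomy (b ^ 2 - 4 * a * c) p with h | h | h <;> omega
        omega
      · rw [h4]
        field_simp
        ring

lemma SS_eq (a b c : ℤ) (h : Admissible a b c) {z : ℕ} (hz : 2 ≤ z) :
    SS z (pol ![c, b, a]) = 2 * CF a b c z := by
  classical
  unfold SS CF
  have e0 : ∀ p ∈ (Icc 1 z).filter Nat.Prime, (1 - (rho (pol ![c, b, a]) p : ℝ) / p) / (1 - 1 / (p : ℝ)) =
      (if p = 2 then (if (2 : ℤ) ∣ a + b then (2 : ℝ) else 1)
      else if (p : ℤ) ∣ a ∧ (p : ℤ) ∣ b then (p : ℝ) / (p - 1)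
      else if (p : ℤ) ∣ a then 1 else 1 - (jacobiSym (b ^ 2 - 4 * a * c) p : ℝ) / (p - 1)) := by
    intro p hp
    rw [rho_eq]
    exact (factor a b c h (mem_filter.1 hp).2).2
  rw [prod_congr rfl e0]
  have e1 : (Icc 1 z).filter Nat.Prime = insert 2 (((range (z + 1)).filter (fun p : ℕ => p.Prime ∧ 3 ≤ p ∧ (p : ℤ) ∣ a ∧ (p : ℤ) ∣ b)) ∪
      (((range (z + 1)).filter (fun p : ℕ => p.Prime ∧ 3 ≤ p ∧ (p : ℤ) ∣ a ∧ ¬ (p : ℤ) ∣ b)) ∪
      ((range (z + 1)).filter (fun p : ℕ => p.Prime ∧ 3 ≤ p ∧ ¬ (p : ℤ) ∣ a)))) := by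
    ext p
    simp only [mem_filter, mem_Icc, mem_insert, mem_union, mem_range]
    constructor
    · rintro ⟨h1, h2⟩
      by_cases hp2 : p = 2
      · exact Or.inl hp2
      · right
        have := h2.two_le
        by_cases hpa : (p : ℤ) ∣ a
        · by_cases hpb : (p : ℤ) ∣ b
          · exact Or.inl ⟨by omega, h2, by omega, hpa, hpb⟩
          · exact Or.inr (Or.inl ⟨by omega, h2, by omega, hpa, hpb⟩)
        · exact Or.inr (Or.inr ⟨by omega, h2, by omega, hpa⟩)
    · rintro (rfl | h | h | h)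
      · exact ⟨⟨by norm_num, hz⟩, Nat.prime_two⟩
      · exact ⟨⟨by omega, by omega⟩, h.2.1⟩
      · exact ⟨⟨by omega, by omega⟩, h.2.1⟩
      · exact ⟨⟨by omega, by omega⟩, h.2.1⟩
  rw [e1, prod_insert, prod_union, prod_union]
  · have g1 : ∀ p ∈ (range (z + 1)).filter (fun p : ℕ => p.Prime ∧ 3 ≤ p ∧ (p : ℤ) ∣ a ∧ (p : ℤ) ∣ b),
        (if p = 2 then (if (2 : ℤ) ∣ a + b then (2 : ℝ) else 1)
      else if (p : ℤ) ∣ a ∧ (p : ℤ) ∣ b then (p : ℝ) / (p - 1)
      else if (p : ℤ) ∣ a then 1 else 1 - (jacobiSym (b ^ 2 - 4 * a * c) p : ℝ) / (p - 1)) = (p : ℝ) / (p - 1) := by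
      intro p hp
      obtain ⟨-, -, h3, h4, h5⟩ := mem_filter.1 hp
      rw [if_neg (by omega), if_pos ⟨h4, h5⟩]
    have g2 : ∀ p ∈ (range (z + 1)).filter (fun p : ℕ => p.Prime ∧ 3 ≤ p ∧ (p : ℤ) ∣ a ∧ ¬ (p : ℤ) ∣ b),
        (if p = 2 then (if (2 : ℤ) ∣ a + b then (2 : ℝ) else 1)
      else if (p : ℤ) ∣ a ∧ (p : ℤ) ∣ b then (p : ℝ) / (p - 1)
      else if (p : ℤ) ∣ a then 1 else 1 - (jacobiSym (b ^ 2 - 4 * a * c) p : ℝ) / (p - 1)) = 1 := by
      intro p hp
      obtain ⟨-, -, h3, h4, h5⟩ := mem_filter.1 hp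
      rw [if_neg (by omega), if_neg (fun h => h5 h.2), if_pos h4]
    have g3 : ∀ p ∈ (range (z + 1)).filter (fun p : ℕ => p.Prime ∧ 3 ≤ p ∧ ¬ (p : ℤ) ∣ a),
        (if p = 2 then (if (2 : ℤ) ∣ a + b then (2 : ℝ) else 1)
      else if (p : ℤ) ∣ a ∧ (p : ℤ) ∣ b then (p : ℝ) / (p - 1)
      else if (p : ℤ) ∣ a then 1 else 1 - (jacobiSym (b ^ 2 - 4 * a * c) p : ℝ) / (p - 1)) =
        1 - (jacobiSym (b ^ 2 - 4 * a * c) p : ℝ) / (p - 1) := by
      intro p hp
      obtain ⟨-, -, h3, h4⟩ := mem_filter.1 hp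
      rw [if_neg (by omega), if_neg (fun h => h4 h.1), if_neg h4]
    rw [prod_congr rfl g1, prod_congr rfl g2, prod_congr rfl g3, prod_const_one, one_mul, if_pos rfl]
    split_ifs <;> ring
  · rw [disjoint_left]
    intro p hp hp'
    exact (mem_filter.1 hp').2.2.2 (mem_filter.1 hp).2.2.2.1
  · rw [disjoint_left]
    intro p hp hp'
    rw [mem_union] at hp'
    rcases hp' with h | h
    · exact (mem_filter.1 h).2.2.2.2 (mem_filter.1 hp).2.2.2.2
    · exact (mem_filter.1 h).2.2.2 (mem_filter.1 hp).2.2.2.1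
  · simp only [mem_union, mem_filter]
    rintro (h | h | h) <;> omega

lemma tri_mem (H : ℕ) (t : ℤ × ℤ × ℤ) : t ∈ triples H ↔ (![t.2.2, t.2.1, t.1] : Fin 3 → ℤ) ∈ Pool.Agent.TH892.box 2 H := by
  unfold triples Pool.Agent.TH892.box
  rw [mem_product, mem_product, Fintype.mem_piFinset]
  constructor
  · rintro ⟨h1, h2, h3⟩ i
    fin_cases i
    · simpa using h3
    · simpa using h2
    · simpa using h1
  · intro h
    refine ⟨by simpa using h 2, by simpa using h 1, by simpa using h 0⟩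

lemma inj3 : Function.Injective (fun t : ℤ × ℤ × ℤ => (![t.2.2, t.2.1, t.1] : Fin 3 → ℤ)) := by
  intro s t h
  have h0 := congrFun h 0
  have h1 := congrFun h 1
  have h2 := congrFun h 2
  simp at h0 h1 h2
  exact Prod.ext h2 (Prod.ext h1 h0)

lemma card_box (H : ℕ) : #(Pool.Agent.TH892.box 2 H) = #(triples H) := by
  symm
  apply card_bij (fun t _ => (![t.2.2, t.2.1, t.1] : Fin 3 → ℤ))
  · intro t ht
    exact (tri_mem H t).1 ht
  · intro s _ t _ h
    exact inj3 h
  · intro v hv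
    have e : (![v 0, v 1, v 2] : Fin 3 → ℤ) = v := by
      funext i
      fin_cases i <;> rfl
    refine ⟨(v 2, v 1, v 0), ?_, e⟩
    rw [tri_mem]
    change (![v 0, v 1, v 2] : Fin 3 → ℤ) ∈ Pool.Agent.TH892.box 2 H
    rw [e]
    exact hv

/-- **The Hardy-Littlewood formula for almost all quadratic polynomials of height at most `H`.** Let `η > 0` and
`U ≥ 0`. There are `B` and `H₀` such that for `H ≥ H₀` all but at most the proportion `(log H)^(-U)` of the triples
`(a, b, c)` with `1 ≤ a ≤ H`, `|b| ≤ H`, `|c| ≤ H` have the following property: if `(a, b, c)` is admissible, then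
the product `C(a, b, c)` converges to a number `S > 0` and, with `M = ε S ∏_{p > 2, p ∣ gcd(a, b)} p / (p - 1)`, for
ALL `K` with `H^η ≤ K ≤ H / (log H)^B` the number of `n ≤ K` for which `|a n² + b n + c|` is prime differs from
`M ∑_{n ≤ K} 1 / log |a n² + b n + c|` by at most the proportion `(log H)^(-U)` of the latter. -/
theorem result (η : ℝ) (hη : 0 < η) (U : ℕ) : ∃ B H₀ : ℕ, ∀ H : ℕ, H₀ ≤ H →
    ∃ Bad ⊆ triples H, (#Bad : ℝ) ≤ (#(triples H) : ℝ) / Real.log H ^ U ∧
      ∀ a b c : ℤ, (a, b, c) ∈ triples H → (a, b, c) ∉ Bad → Admissible a b c →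
        ∃ S : ℝ, 0 < S ∧ Tendsto (fun z => partialC a b c z) atTop (𝓝 S) ∧
          ∀ K : ℕ, (H : ℝ) ^ η ≤ K → (K : ℝ) * Real.log H ^ B ≤ H →
            |primeCount a b c K - eps a b * S * gcdProd a b * logSum a b c K| ≤
              eps a b * S * gcdProd a b * logSum a b c K / Real.log H ^ U := by
  classical
  obtain ⟨E1, h1⟩ := Pool.Agent.TH892.CF_box (U + 1) (U + 3)
  obtain ⟨E2, h2⟩ := Pool.Agent.TH892.exc_box 2 (by norm_num) η hη (U + 2)
  set E := max (max E1 E2) 1 with hE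
  obtain ⟨H1, h1'⟩ := h1 E ((le_max_left _ _).trans (le_max_left _ _))
  obtain ⟨B, H2, h2'⟩ := h2 E ((le_max_right _ _).trans (le_max_left _ _))
  obtain ⟨H3, hH3⟩ := eventually_atTop.mp (Pool.Agent.H442R2.EHI.evt_log_ge 16)
  refine ⟨B, max (max H1 H2) H3, fun H hH => ?_⟩
  have hHH1 : H1 ≤ H := (le_max_left _ _).trans ((le_max_left _ _).trans hH)
  have hHH2 : H2 ≤ H := (le_max_right _ _).trans ((le_max_left _ _).trans hH)
  have hL : 16 ≤ Real.log H := hH3 H ((le_max_right _ _).trans hH)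
  set L := Real.log H with hLd
  have hL0 : 0 < L := by linarith
  have hL1 : 1 ≤ L := by linarith
  set z := ⌊L ^ E⌋₊ with hz
  have hz2 : 2 ≤ z := by
    apply Nat.le_floor
    have : L ^ 1 ≤ L ^ E := pow_le_pow_right₀ hL1 (le_max_right _ _)
    push_cast
    linarith
  obtain ⟨X, hXs, hXc, hX⟩ := h1' H hHH1
  set Q : (Fin 3 → ℤ) → Prop := fun v => (∀ p : ℕ, p.Prime → p ≤ z → rho (pol v) p ≠ p) ∧
      ∃ K : ℕ, (H : ℝ) ^ η ≤ K ∧ (K : ℝ) * L ^ B ≤ H ∧
        SS z (pol v) * la (pol v) K / L ^ (U + 2) < |pa (pol v) K - SS z (pol v) * la (pol v) K| with hQ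
  have hY := h2' H hHH2 Q (fun v _ hv => hv)
  set Y := (triples H).filter (fun t => Q ![t.2.2, t.2.1, t.1]) with hYd
  have hYc : (#Y : ℝ) ≤ (#(triples H) : ℝ) / L ^ (U + 2) := by
    rw [← card_box]
    refine le_trans ?_ hY
    have : #Y ≤ #((Pool.Agent.TH892.box 2 H).filter Q) := by
      apply card_le_card_of_injOn (fun t => (![t.2.2, t.2.1, t.1] : Fin 3 → ℤ))
      · intro t ht
        rw [mem_coe, hYd, mem_filter] at ht
        rw [mem_coe, mem_filter]
        exact ⟨(tri_mem H t).1 ht.1, ht.2⟩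
      · intro s _ t _ h
        exact inj3 h
    exact_mod_cast this
  have hTr : (Tr H : Finset (ℤ × ℤ × ℤ)) = triples H := rfl
  rw [hTr] at hXs hXc hX
  have hN0 : (0 : ℝ) ≤ (#(triples H) : ℝ) := Nat.cast_nonneg _
  refine ⟨X ∪ Y, union_subset hXs (filter_subset _ _), ?_, ?_⟩
  · have h3 : (#(X ∪ Y) : ℝ) ≤ #X + #Y := by exact_mod_cast card_union_le X Y
    refine h3.trans ?_
    have h4 : (#(triples H) : ℝ) / L ^ (U + 2) ≤ (#(triples H) : ℝ) / L ^ (U + 1) :=
      div_le_div_of_nonneg_left hN0 (by positivity) (pow_le_pow_right₀ hL1 (by omega))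
    calc (#X : ℝ) + #Y ≤ (#(triples H) : ℝ) / L ^ (U + 1) + (#(triples H) : ℝ) / L ^ (U + 1) :=
          add_le_add hXc (hYc.trans h4)
      _ = (#(triples H) : ℝ) / L ^ U * (2 / L) := by
          rw [pow_succ]
          field_simp
          ring
      _ ≤ (#(triples H) : ℝ) / L ^ U * 1 := by
          apply mul_le_mul_of_nonneg_left _ (by positivity)
          rw [div_le_one hL0]
          linarith
      _ = _ := mul_one _
  · intro a b c ht hn hadm
    rw [mem_union, not_or] at hn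
    have ha : 0 < a := hadm.1
    have hc0 : c ≠ 0 := by
      rintro rfl
      exact hadm.2.2.2 ⟨b, by ring⟩
    obtain ⟨K₀, hK₀, hlim⟩ := Pool.Agent.W468.ConjF.CF_tendsto a b c ha hadm.2.2.2
    have hev := hX (a, b, c) ht hn.1 hc0 hadm.2.2.2
    have hcl := Pool.Agent.TH892.CF_limit a b c K₀ hK₀ hlim z (1 / L ^ (U + 3)) (by
      rw [div_le_one (by positivity)]
      exact one_le_pow₀ hL1) hev
    have hg := gcdProd_pos a b
    have he := eps_pos a b
    have hne : eps a b * gcdProd a b ≠ 0 := by positivity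
    refine ⟨2 * K₀ / (eps a b * gcdProd a b), by positivity, ?_, ?_⟩
    · have h5 : Tendsto (fun z => 2 * CF a b c z / (eps a b * gcdProd a b)) atTop
          (𝓝 (2 * K₀ / (eps a b * gcdProd a b))) := (hlim.const_mul 2).div_const _
      refine h5.congr' ?_
      filter_upwards [eventually_ge_atTop a.toNat] with w hw
      rw [CF_eq a b c ha w (by omega)]
      field_simp
    · intro K hK1 hK2
      have hM : eps a b * (2 * K₀ / (eps a b * gcdProd a b)) * gcdProd a b = 2 * K₀ := by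
        field_simp
      rw [hM]
      have hnQ : ¬ Q ![c, b, a] := by
        intro hq
        apply hn.2
        rw [hYd, mem_filter]
        exact ⟨ht, hq⟩
      have hrho : ∀ p : ℕ, p.Prime → p ≤ z → rho (pol ![c, b, a]) p ≠ p := by
        intro p hp _
        rw [rho_eq]
        exact (factor a b c hadm hp).1
      have hle : |pa (pol ![c, b, a]) K - SS z (pol ![c, b, a]) * la (pol ![c, b, a]) K| ≤
          SS z (pol ![c, b, a]) * la (pol ![c, b, a]) K / L ^ (U + 2) := by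
        by_contra hcon
        push Not at hcon
        exact hnQ ⟨hrho, K, hK1, hK2, hcon⟩
      rw [pa_eq, la_eq, SS_eq a b c hadm hz2] at hle
      set ls := logSum a b c K with hls
      have hls0 : 0 ≤ ls := by
        rw [hls]
        unfold logSum
        apply sum_nonneg
        intro n hn
        have h2 := (mem_filter.1 hn).2
        have h3 : (2 : ℝ) ≤ |((a * (n : ℤ) ^ 2 + b * n + c : ℤ) : ℝ)| := by exact_mod_cast h2
        have h4 : 0 ≤ Real.log |((a * (n : ℤ) ^ 2 + b * n + c : ℤ) : ℝ)| := Real.log_nonneg (by linarith)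
        positivity
      set y := CF a b c z with hy
      have hθ : 1 / L ^ (U + 3) = 1 / L ^ U * (1 / L ^ 3) := by
        rw [pow_add]
        field_simp
      have hθ2 : 1 / L ^ (U + 2) = 1 / L ^ U * (1 / L ^ 2) := by
        rw [pow_add]
        field_simp
      have hL3 : 1 / L ^ 3 ≤ 1 / 16 := by
        apply one_div_le_one_div_of_le (by norm_num)
        calc (16 : ℝ) ≤ L := hL
          _ = L ^ 1 := (pow_one L).symm
          _ ≤ L ^ 3 := pow_le_pow_right₀ hL1 (by norm_num)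
      have hL2 : 1 / L ^ 2 ≤ 1 / 16 := by
        apply one_div_le_one_div_of_le (by norm_num)
        calc (16 : ℝ) ≤ L := hL
          _ = L ^ 1 := (pow_one L).symm
          _ ≤ L ^ 2 := pow_le_pow_right₀ hL1 (by norm_num)
      set u := 1 / L ^ U with hu
      have hu0 : 0 < u := by positivity
      have hu1 : u ≤ 1 := by
        rw [hu, div_le_one (by positivity)]
        exact one_le_pow₀ hL1
      have hyK : |y - K₀| ≤ u / 8 * K₀ := by
        refine hcl.trans ?_
        rw [hθ]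
        have : 2 * (u * (1 / L ^ 3)) ≤ u / 8 := by nlinarith
        exact mul_le_mul_of_nonneg_right this hK₀.le
      have hy2 : y ≤ 2 * K₀ := by
        have := (abs_le.1 hyK).2
        nlinarith
      have hd1 : |primeCount a b c K - 2 * y * ls| ≤ 2 * y * ls * (u / 16) := by
        refine hle.trans ?_
        have : 2 * y * ls / L ^ (U + 2) = 2 * y * ls * (1 / L ^ (U + 2)) := by ring
        rw [this, hθ2]
        have hy0 : 0 ≤ y := (Pool.Agent.W468.ConjF.CF_pos a b c z).le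
        apply mul_le_mul_of_nonneg_left _ (by positivity)
        nlinarith
      have hd2 : |2 * y * ls - 2 * K₀ * ls| ≤ 2 * ls * (u / 8 * K₀) := by
        have : 2 * y * ls - 2 * K₀ * ls = 2 * ls * (y - K₀) := by ring
        rw [this, abs_mul, abs_of_nonneg (by positivity)]
        exact mul_le_mul_of_nonneg_left hyK (by positivity)
      have htri : |primeCount a b c K - 2 * K₀ * ls| ≤ |primeCount a b c K - 2 * y * ls| +
          |2 * y * ls - 2 * K₀ * ls| := abs_sub_le _ _ _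
      have hfin : 2 * y * ls * (u / 16) ≤ 2 * (2 * K₀) * ls * (u / 16) := by
        have : 0 ≤ ls * u := by positivity
        nlinarith
      calc |primeCount a b c K - 2 * K₀ * ls| ≤ 2 * (2 * K₀) * ls * (u / 16) + 2 * ls * (u / 8 * K₀) := by linarith
        _ ≤ 2 * K₀ * ls * u := by
            have : 0 ≤ K₀ * ls * u := by positivity
            nlinarith
        _ = 2 * K₀ * ls / L ^ U := by
            rw [hu]
            ring

end Pool.Agent.Results.MP_a1177c_nt.AllTriples
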