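import Pool.Agent.X69.Ric.PackI

/-!
# The vectors of consecutive gaps between the prime (or rough) values of an irreducible polynomial

Let `f` be an irreducible integer polynomial of degree at least two (for the problem: a quadratic polynomial)
without a fixed prime divisor. In every interval of length `Y ≥ X ^ θ` let `A` be a set of at least
`c Y / log X` integers `n` such that `f n` has no prime factor less than `X ^ δ` (for instance the `n` with
`f n` prime, if there are that many). Then a positive proportion of all vectors of `m` positive integers up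
to `K log X` are vectors of `m` consecutive gaps of `A`, each of them for at least `κ Y / (log X) ^ (m + 1)`
elements of `A`: the order of magnitude of the conjecture of Hardy and Littlewood and of Bateman and Horn.
-/

set_option autoImplicit false

namespace Pool.Agent.Results.MP_a1177c_nt.GapVectors

open Filter MeasureTheory Polynomial

/-- No prime factor of `f n` is less than `y`. -/
def Rough (f : ℤ[X]) (y : ℝ) (n : ℕ) : Prop := ∀ p : ℕ, p.Prime → (p : ℤ) ∣ f.eval (n : ℤ) → y ≤ p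

/-- `h` is the vector of the `m` gaps of `A` that follow `n`: all `h i` are positive and the elements of `A`
between `n` and `n + h 0 + ... + h (m - 1)` are exactly `n`, `n + h 0`, `n + h 0 + h 1`, .... -/
def NextGaps (A : Set ℕ) {m : ℕ} (h : Fin m → ℕ) (n : ℕ) : Prop :=
  (∀ i, 0 < h i) ∧ ∀ x, (x ∈ A ∧ n ≤ x ∧ x ≤ n + ∑ i, h i) ↔
    ∃ j : ℕ, j ≤ m ∧ x = n + ∑ i ∈ Finset.univ.filter (fun i : Fin m => (i : ℕ) < j), h i

/-- The number of the elements of `A` after which `h` is the vector of the next `m` gaps. -/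
noncomputable def freq (A : Set ℕ) {m : ℕ} (h : Fin m → ℕ) : ℕ := {n | n ∈ A ∧ NextGaps A h n}.ncard

/-- `A` has at least `c X / log X` elements in `[1, X]`, for some `c > 0` and all large `X`. -/
def Many (A : Set ℕ) : Prop :=
  ∃ c : ℝ, 0 < c ∧ ∀ᶠ X : ℕ in atTop, c * X / Real.log X ≤ ((A ∩ Set.Icc 1 X).ncard : ℝ)

/-- The vector of `m` consecutive normalised gaps `(a (k+i+1) - a (k+i)) / log a (k+i)`, `0 ≤ i < m`, of the
set `A = {a 0 < a 1 < ...}`. -/
noncomputable def gaps (A : Set ℕ) (m k : ℕ) : Fin m → ℝ := fun i =>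
  ((Nat.nth (· ∈ A) (k + i + 1) : ℝ) - Nat.nth (· ∈ A) (k + i)) / Real.log (Nat.nth (· ∈ A) (k + i))

/-- The set of the limit points in `ℝ ^ m` of the vectors of `m` consecutive normalised gaps of `A`. -/
def LimitVectors (A : Set ℕ) (m : ℕ) : Set (Fin m → ℝ) := {t | MapClusterPt t atTop (gaps A m)}

/-- The integers `n` such that `f n` has at most `r` prime factors, counted with multiplicity, all of them
greater than `n ^ (1 / r)`. -/
def Almost (f : ℤ[X]) (r : ℕ) : Set ℕ :=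
  {n | ArithmeticFunction.cardFactors (f.eval (n : ℤ)).natAbs ≤ r ∧
    ∀ p : ℕ, p.Prime → (p : ℤ) ∣ f.eval (n : ℤ) → (n : ℝ) ^ (1 / (r : ℝ)) < p}

/-- **Gap vectors of sets of rough values of an irreducible polynomial.** -/
theorem result (f : ℤ[X]) (hirr : Irreducible f) (hdeg : 2 ≤ f.natDegree) (hlead : 0 < f.leadingCoeff)
    (hadm : ∀ p : ℕ, p.Prime → ∃ n : ℤ, ¬ (p : ℤ) ∣ f.eval n) :
    (∀ δ θ c : ℝ, 0 < δ → 0 < θ → 0 < c → ∀ m : ℕ, 1 ≤ m → ∃ K : ℝ, 0 < K ∧ ∃ κ : ℝ, 0 < κ ∧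
      ∀ᶠ X : ℕ in atTop, ∀ Z Y : ℕ, (X : ℝ) ^ θ ≤ Y → ∀ A : Set ℕ, A ⊆ Set.Ioc Z (Z + Y) →
        (∀ n ∈ A, Rough f ((X : ℝ) ^ δ) n) → c * Y / Real.log X ≤ (A.ncard : ℝ) →
        κ * Real.log X ^ m ≤ (({h : Fin m → ℕ | (∀ i, 0 < h i ∧ (h i : ℝ) ≤ K * Real.log X) ∧
          κ * Y / Real.log X ^ (m + 1) ≤ (freq A h : ℝ)}.ncard : ℕ) : ℝ)) ∧
    (∀ A : Set ℕ, ∀ δ : ℝ, 0 < δ → (∀ n ∈ A, Rough f ((n : ℝ) ^ δ) n) → Many A →
      ∀ m : ℕ, 1 ≤ m → 0 < volume (LimitVectors A m)) ∧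
    ∀ θ : ℝ, 0 < θ → θ ≤ 1 → ∃ r₀ : ℕ, 2 ≤ r₀ ∧ ∀ r : ℕ, r₀ ≤ r → ∃ κ : ℝ, 0 < κ ∧
      ∀ᶠ X : ℕ in atTop, ∀ Y : ℕ, (X : ℝ) ^ θ ≤ Y → Y ≤ X →
        κ * Y / Real.log X ≤ (((Set.Ioc X (X + Y) ∩ Almost f r).ncard : ℕ) : ℝ) := by
  have hd : 0 < f.natDegree := by omega
  refine ⟨?_, ?_, ?_⟩
  · intro δ θ c hδ hθ hc m hm
    exact Pool.Agent.X69.Ric.irr_right f hirr hd hadm δ θ c hδ hθ hc m hm
  · intro A δ hδ hA hM m hm
    have h := Pool.Agent.X69.Ric.irr_gaps f hirr hd hadm A δ hδ hA (by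
      obtain ⟨c, hc, h1⟩ := hM
      exact ⟨c, hc, by simpa using h1⟩) m hm
    have e : LimitVectors A m = {t : Fin m → ℝ | MapClusterPt t atTop (Pool.Agent.X69.Ric.gapv 1 A m)} := by
      unfold LimitVectors
      congr 1
      ext t
      have : gaps A m = Pool.Agent.X69.Ric.gapv 1 A m := by
        funext k i
        unfold gaps Pool.Agent.X69.Ric.gapv
        rw [pow_one]
      rw [this]
    rw [e]
    exact h
  · intro θ hθ hθ1
    exact Pool.Agent.X69.Ric.irr_almost f hirr hd hlead hadm θ hθ hθ1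

end Pool.Agent.Results.MP_a1177c_nt.GapVectors
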