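import Mathlib
import Pool.Agent.X56.PN.Fin2

/-!
# Prime values of `f_n = f_0 + n h`: the Hardy-Littlewood formula along a progression of triples

The triples `(a_n, b_n, c_n) = (a₀ + n a, b₀ + n b, c₀ + n c)` run through an arithmetic
progression whose difference has `a ≥ 1`, that is, the polynomials `f_n = f_0 + n h` run through a
line whose direction `h = a X² + b X + c` is itself a quadratic polynomial; for example
`h = X²`: only the leading coefficient varies. For fixed `m` the values `f_n(m)` run through the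
residue class of `f_0(m)` modulo `h(m)`, so that the first moment over `n` is a question about
primes in progressions to the sparse set of moduli `h(m)`. It is answered by the large sieve and the
Siegel-Walfisz theorem, since an integer `f` divides at most two of the values of `h` in an interval
of length `(f / a)^{1/3}`. The second moment comes from the sieve and a sixth moment of `k / φ(k)`
over the values of `h` and of the factor `R(s, t)` of `h(s) f_0(t) - h(t) f_0(s)`. The products
`C(a_n, b_n, c_n)` are compared with their cut products for almost all `n` by a second moment, the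
large sieve over the kernels of the discriminants together with a gap principle for Pell
equations, and a first moment over the primes dividing the leading coefficient.
-/

set_option autoImplicit false

namespace Pool.Agent.Results.MP_a1177c_nt.ProgressionsOfTriples

open Finset Filter Topology

/-- the triple `(a, b, c)` is admissible -/
def Admissible (a b c : ℤ) : Prop :=
  0 < a ∧ (∀ d : ℤ, d ∣ a → d ∣ b → d ∣ c → IsUnit d) ∧ ¬ ((2 : ℤ) ∣ a + b ∧ (2 : ℤ) ∣ c) ∧
    ¬ IsSquare (b ^ 2 - 4 * a * c)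

/-- the number of `1 ≤ m ≤ x` for which `a m² + b m + c` is a (positive) prime -/
def primeCount (a b c : ℤ) (x : ℕ) : ℕ :=
  #((Icc 1 x).filter (fun m : ℕ => (a * (m : ℤ) ^ 2 + b * m + c).toNat.Prime))

/-- `ε = 2` if `a + b` is even and `ε = 1` if `a + b` is odd -/
noncomputable def eps (a b : ℤ) : ℝ := if (2 : ℤ) ∣ a + b then 2 else 1

/-- the product `∏_{p > 2, p ∣ gcd(a, b)} p / (p - 1)` -/
noncomputable def gcdProd (a b : ℤ) : ℝ :=
  ∏ p ∈ (Int.gcd a b).primeFactors.filter (fun p => 2 < p), (p : ℝ) / (p - 1)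

/-- the partial product `∏_{2 < p ≤ z, p ∤ a} (1 - (D / p) / (p - 1))` of `C(a, b, c)`, where
`D = b² - 4 a c` -/
noncomputable def partialC (a b c : ℤ) (z : ℕ) : ℝ :=
  ∏ p ∈ (Icc 3 z).filter (fun p : ℕ => p.Prime ∧ ¬ (p : ℤ) ∣ a),
    (1 - (jacobiSym (b ^ 2 - 4 * a * c) p : ℝ) / (p - 1))

/-- **The Hardy-Littlewood formula along an arithmetic progression of triples.** Let `a ≥ 1` and
`b, c, a₀, b₀, c₀` be integers such that `a X² + b X + c` and `a₀ X² + b₀ X + c₀` have no common
root (their resultant is nonzero) and no prime divides all values of both of them. For every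
`θ < 1` there are `κ > 0` and `N0` with the following property. Let `N ≥ N0`, `log N ≤ x` and
`x^11 ≤ N`. Then for at least `κ N` of the `n ≤ N` the triple
`(A, B, C) = (a₀ + n a, b₀ + n b, c₀ + n c)` is admissible, the product `C(A, B, C)` converges to
a positive number, and the number of `m ≤ x` with `A m² + B m + C` prime is at least
`θ · ε C(A, B, C) ∏_{p > 2, p ∣ gcd(A, B)} p / (p - 1) · x / log (N x²)` and at least
`κ x / log N`. -/
theorem result (a : ℕ) (ha : 1 ≤ a) (b c a₀ b₀ c₀ : ℤ)
    (hR : ((a : ℤ) * c₀ - a₀ * c) ^ 2 - ((a : ℤ) * b₀ - a₀ * b) * (b * c₀ - b₀ * c) ≠ 0)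
    (hfix : ∀ p : ℕ, p.Prime → ∃ t : ℤ,
      ¬ ((p : ℤ) ∣ a * t ^ 2 + b * t + c ∧ (p : ℤ) ∣ a₀ * t ^ 2 + b₀ * t + c₀)) :
    ∀ θ : ℝ, θ < 1 → ∃ κ : ℝ, 0 < κ ∧ ∃ N0 : ℕ, ∀ N : ℕ, N0 ≤ N → ∀ x : ℕ, Real.log N ≤ x →
      x ^ 11 ≤ N → ∃ S : Finset ℕ, S ⊆ Icc 1 N ∧ κ * N ≤ S.card ∧ ∀ n ∈ S,
        Admissible (a₀ + n * a) (b₀ + n * b) (c₀ + n * c) ∧ ∃ C : ℝ, 0 < C ∧
          Tendsto (fun z => partialC (a₀ + n * a) (b₀ + n * b) (c₀ + n * c) z) atTop (𝓝 C) ∧
          θ * (eps (a₀ + n * a) (b₀ + n * b) * C * gcdProd (a₀ + n * a) (b₀ + n * b)) * x /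
            Real.log (N * x ^ 2) ≤ primeCount (a₀ + n * a) (b₀ + n * b) (c₀ + n * c) x ∧
          κ * x / Real.log N ≤ primeCount (a₀ + n * a) (b₀ + n * b) (c₀ + n * c) x :=
  Pool.Agent.X56.PN.line_final a ha b c a₀ b₀ c₀ hR hfix

end Pool.Agent.Results.MP_a1177c_nt.ProgressionsOfTriples
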