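import Pool.Agent.X32.Uni.UncD

/-!
# Quadratic polynomials with arbitrarily large coefficients in all intervals of length `X ^ ε`, uniformly

Let `D, E ≥ 1`, `A₀` and `ε > 0` be given. There are `z`, `G`, `t` and `κ, K' > 0` such that for all large `X` the
following holds for ALL finite sets `Q` of nonconstant integer polynomials `f` of total degree `≤ D`, with coefficients
bounded by `X ^ A₀` and with contents bounded by `E` (for instance all `f(x + i) + j`, `|i|, |j| ≤ L`, for several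
quadratic polynomials `f = a x ^ 2 + b x + c` with `gcd (a, b) ≤ E`), and for all subsets `T` of `Q` such that no prime divides all the values of `∏_{f ∈ T} f` (for
instance `T = {f}` for an admissible `f`; there is no local condition for the other members of `Q`): for EVERY
interval `(A, B]` with `B ≤ X`, `B - A ≥ X ^ ε`, the number of the integers `n` in `(A, B]` such that
* `f(n)` is, for every `f ∈ T`, a product of at most `t` primes `> X ^ (1/t)`,
* `f(n)` is, for every `f ∈ Q`, the product of an integer `1 ≤ g ≤ G` composed of primes `≤ z` and of at most `t`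
  primes `> X ^ (1/t)`,
is between `κ (B - A) V` and `K' (B - A) V`. Here `V` is the product of `1 - ω(p) / p` over the primes `z < p ≤ X`,
`ω(p)` the number of the zeros modulo `p` of `∏_{f ∈ Q} f(x)`, and `V ≥ κ / (log X) ^ D`. For every colouring all but
`δ (B - A) V` of these `n` are covered by pairwise disjoint monochromatic progressions of `s` such `n` with
differences `≤ (log X) ^ c`.
-/

set_option autoImplicit false

namespace Pool.Agent.Results.MP_a1177c_nt.UniformShortIntervals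

open Finset
open scoped Polynomial

/-- `|v| > 1`, and `|v|` is a product of at most `r` primes, all of them larger than `y` -/
def Almost (r : ℕ) (y : ℝ) (v : ℤ) : Prop :=
  1 < |v| ∧ v.natAbs.primeFactorsList.length ≤ r ∧ ∀ q : ℕ, q.Prime → (q : ℤ) ∣ v → y < q

/-- `v = g w`, where `1 ≤ g ≤ G` has only prime factors `≤ z` and `|w| > 1` is a product of at most `r` primes `> y` -/
def Near (z G r : ℕ) (y : ℝ) (v : ℤ) : Prop :=
  ∃ (g : ℕ) (w : ℤ), v = g * w ∧ 1 ≤ g ∧ g ≤ G ∧ (∀ p : ℕ, p.Prime → p ∣ g → p ≤ z) ∧ Almost r y w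

/-- every positive integer which divides all the coefficients of `f` is at most `E` -/
def ContentAtMost (E : ℕ) (f : ℤ[X]) : Prop := ∀ k : ℕ, Polynomial.C (k : ℤ) ∣ f → k ≤ E

/-- `ω(p)`: the number of the zeros of `∏ f(x)` modulo `p` -/
def omega (Q : Finset ℤ[X]) (p : ℕ) : ℕ := ((range p).filter fun x : ℕ => (p : ℤ) ∣ ∏ f ∈ Q, f.eval (x : ℤ)).card

/-- the product of `1 - ω(p) / p` over the primes `z < p ≤ X` -/
noncomputable def V (Q : Finset ℤ[X]) (z X : ℕ) : ℝ :=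
  ∏ p ∈ (Ioc z X).filter Nat.Prime, (1 - (omega Q p : ℝ) / p)

open Classical in
/-- the integers `n` of `(A, B]` described above -/
noncomputable def Good (Q T : Finset ℤ[X]) (z G t X A B : ℕ) : Finset ℕ :=
  (Ioc A B).filter (fun n : ℕ => (∀ f ∈ T, Almost t ((X : ℝ) ^ (1 / (t : ℝ))) (f.eval (n : ℤ))) ∧
    ∀ f ∈ Q, Near z G t ((X : ℝ) ^ (1 / (t : ℝ))) (f.eval (n : ℤ)))

/-- the terms `a, a + b, ..., a + (s - 1) b` of the progression `τ = (a, b)` -/
def terms (s : ℕ) (τ : ℕ × ℕ) : Finset ℕ := (range s).image (fun i => τ.1 + i * τ.2)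

theorem result (D E A₀ : ℕ) (hD : 1 ≤ D) (hE : 1 ≤ E) (ε : ℝ) (hε : 0 < ε) :
    ∃ z G t : ℕ, 1 ≤ t ∧ ∃ κ K' : ℝ, 0 < κ ∧ 0 < K' ∧ ∀ (s r : ℕ) (δ : ℝ),
    1 ≤ s → 0 < δ → ∃ c X₀ : ℕ, ∀ X : ℕ, X₀ ≤ X → ∀ Q T : Finset ℤ[X], T ⊆ Q → ∑ f ∈ Q, f.natDegree ≤ D →
      (∀ f ∈ Q, 1 ≤ f.natDegree ∧ ContentAtMost E f ∧ ∀ n, |f.coeff n| ≤ (X : ℤ) ^ A₀) →
      (∀ p : ℕ, p.Prime → ∃ x : ℤ, ¬ (p : ℤ) ∣ ∏ f ∈ T, f.eval x) →
      κ / Real.log X ^ D ≤ V Q z X ∧
      ∀ A B : ℕ, B ≤ X → (X : ℝ) ^ ε ≤ (B : ℝ) - A →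
        κ * ((B : ℝ) - A) * V Q z X ≤ ((Good Q T z G t X A B).card : ℝ) ∧
        ((Good Q T z G t X A B).card : ℝ) ≤ K' * ((B : ℝ) - A) * V Q z X ∧
        ∀ χ : ℕ → Fin r, ∃ P : Finset (ℕ × ℕ),
          (∀ τ ∈ P, 1 ≤ τ.2 ∧ (τ.2 : ℝ) ≤ Real.log X ^ c ∧
            ∀ l < s, τ.1 + l * τ.2 ∈ Good Q T z G t X A B ∧ χ (τ.1 + l * τ.2) = χ τ.1) ∧
          (P : Set (ℕ × ℕ)).PairwiseDisjoint (terms s) ∧
          (((Good Q T z G t X A B \ P.biUnion (terms s)).card : ℕ) : ℝ) ≤ δ * ((B : ℝ) - A) * V Q z X :=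
  Pool.Agent.X32.Uni.uncCS D E A₀ hD hE ε hε

end Pool.Agent.Results.MP_a1177c_nt.UniformShortIntervals
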